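import Pool.Agent.H5.Coh.Dir

/-!
# MP_10e0c3_an (Q1): coboundaries are detected by countably directed families

Definitions (`Pool/Agent/H5/Coh/Defs.lean`): `SubAlg H` (self-adjoint subalgebras of `B(H)`), `El A`, `El.op`, `El.incl` (elements
of `A`, as operators, and as elements of a larger algebra), `Cochain A n` (bounded `n`-linear maps `A^n → B(H)`), `contract`,
`cobdy` (the Hochschild coboundary), `IsCobdy g f` (`δ g = f`), `Family A ι` (countably directed families `(B i, P i)`) and
`Family.CompIsCobdy`.
-/

namespace Pool.Agent.Results.MP_10e0c3_an.CountablyDirected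

open Pool.H5Coh.St

universe u v

/-- Let `(B i, P i)` be a countably directed family of pairs of a *-subalgebra `B i` of `A ⊆ B(H)` and an orthogonal projection
`P i` commuting with `B i`, with `A = ⋃ B i` and `H = ⋃ P i H`.  A cochain `f` of `A` of degree `m + 1 ≥ 1` is the coboundary
of a bounded `m`-cochain of `A` if and only if each compression `P_i f|_{B i} P_i` is the coboundary of a bounded `m`-cochain
of `B i`.  No uniform bound is assumed. -/
theorem result {H : Type u} [NormedAddCommGroup H] [InnerProductSpace ℂ H] [CompleteSpace H]
    (A : SubAlg H) {ι : Type v} (D : Family A ι) (m : ℕ) (f : Cochain A (m + 1)) :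
    (∃ g : Cochain A m, IsCobdy g f) ↔ ∀ i, D.CompIsCobdy f i :=
  Pool.H5Coh.family_main D m f

end Pool.Agent.Results.MP_10e0c3_an.CountablyDirected
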