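import Pool.Agent.H5.Coh.Main

/-!
# MP_10e0c3_an (Q1): reduction to separable algebras, universal constants, finitely many unitaries, cocycles of minimal norm

Definitions (`Pool/Agent/H5/Coh/Defs.lean`): `Op H` (`B(H)`), `SubAlg H` (self-adjoint subalgebras of `B(H)`), `El A`, `El.op`
(elements of `A` and the operators they are), `Cochain A n` (bounded `n`-linear maps `A^n → B(H)`), `contract`, `cobdy` (the
Hochschild coboundary), `IsCocycle`, `IsCobdy`, `CohomologyVanishes A m` (`H^(m+1)(A, B(H)) = 0`), `VanishesWith A m K` (the same
with `‖g‖ ≤ K ‖f‖` for a suitable solution `g` of `δ g = f`), `Closed`, `Separable`, `l2 ι` (the Hilbert space `ℓ²(ι)`),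
`cstar F` (the C*-algebra generated by `F`), `FiniteUnitary` (finite sets of unitaries), `Cohomologous f h` (`f = δ g + h` for
some `g`), `SeparableQuotient A m` (`H^(m+1)(A, B(H))` is separable in its quotient seminorm), `NoMinimalCocycle A m` (each
nonzero `(m+1)`-cocycle is cohomologous to one of smaller norm), and the six conditions `AllVanish`, `SeparableVanish`,
`UniformVanish`, `UnitaryVanish`, `AllSeparableQuotient`, `AllNoMinimalCocycle`.
-/

namespace Pool.Agent.Results.MP_10e0c3_an.SeparableReduction

open Pool.H5Coh.St

universe u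

/-- For every degree `m + 1 ≥ 1` the following are equivalent:
(1) `H^(m+1)(A, B(H)) = 0` for all `H` and all C*-algebras `A ⊆ B(H)`;
(2) `H^(m+1)(A, B(ℓ²)) = 0` for all norm-separable C*-algebras `A ⊆ B(ℓ²)`;
(3) there is a constant `K` such that for all `H`, all `A ⊆ B(H)` and all bounded `(m+1)`-cocycles `f` there is `g` with
`δ g = f` and `‖g‖ ≤ K ‖f‖`;
(4) there is a constant `K` such that the same holds for all C*-algebras on `ℓ²` generated by finitely many unitary
operators;
(5) for all norm-separable C*-algebras `A ⊆ B(ℓ²)`, `H^(m+1)(A, B(ℓ²))` is separable in its quotient seminorm;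
(6) for all norm-separable C*-algebras `A ⊆ B(ℓ²)`, each nonzero bounded `(m+1)`-cocycle is cohomologous to a cocycle of
strictly smaller norm. -/
theorem result (m : ℕ) :
    List.TFAE [AllVanish.{u} m, SeparableVanish m, UniformVanish.{u} m, UnitaryVanish m,
      AllSeparableQuotient m, AllNoMinimalCocycle m] :=
  Pool.H5Coh.main_tfae.{u} m

end Pool.Agent.Results.MP_10e0c3_an.SeparableReduction
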